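import Pool.Agent.W864.MS.Basic

namespace Pool.Agent.W864.MS

open Filter Topology Set
open scoped ENNReal

universe u

variable {B : Type u} [CompleteBooleanAlgebra B]

section

variable {μ : B → ℝ≥0∞} (hadd : ∀ a b : B, Disjoint a b → μ (a ⊔ b) = μ a + μ b)
  (htop : μ ⊤ ≠ ∞)

include hadd htop

lemma fin_bot : μ ⊥ = 0 := by
  have h := hadd ⊥ ⊤ disjoint_bot_left
  rw [bot_sup_eq] at h
  by_contra hne
  have h2 : μ ⊤ < μ ⊥ + μ ⊤ := by
    rw [add_comm]
    exact ENNReal.lt_add_right htop hne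
  exact absurd h h2.ne

omit htop in
lemma fin_mono {a b : B} (hab : a ≤ b) : μ a ≤ μ b := by
  have : b = a ⊔ (b \ a) := by rw [sup_sdiff_cancel_right hab]
  rw [this, hadd a _ disjoint_sdiff_self_right]
  exact le_self_add

lemma fin_sum {a : ℕ → B} (ha : Pairwise (fun i j => Disjoint (a i) (a j))) (N : ℕ) :
    μ ((Finset.range N).sup a) = ∑ n ∈ Finset.range N, μ (a n) := by
  induction N with
  | zero => simp [fin_bot hadd htop]
  | succ N ih =>
    rw [Finset.sum_range_succ, ← ih, Finset.range_add_one, Finset.sup_insert, sup_comm]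
    refine hadd _ _ ?_
    rw [Finset.disjoint_sup_left]
    intro i hi
    exact ha (by
      have := Finset.mem_range.1 hi
      omega)

lemma tsum_inf_le {a : ℕ → B} (ha : Pairwise (fun i j => Disjoint (a i) (a j))) (c : B) :
    ∑' n, μ (c ⊓ a n) ≤ μ c := by
  rw [ENNReal.tsum_eq_iSup_nat]
  refine iSup_le fun N => ?_
  rw [← fin_sum hadd htop (a := fun n => c ⊓ a n) (fun i j hij =>
    (ha hij).mono inf_le_right inf_le_right) N]
  refine fin_mono hadd (Finset.sup_le fun i _ => inf_le_left)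

end

/-- The countably additive part of a finitely additive function. -/
noncomputable def lam (μ : B → ℝ≥0∞) (a : B) : ℝ≥0∞ :=
  ⨅ c : {c : ℕ → B // Pairwise (fun i j => Disjoint (c i) (c j)) ∧ ⨆ n, c n = a}, ∑' n, μ (c.1 n)

lemma lam_le {μ : B → ℝ≥0∞} {a : B} (c : ℕ → B)
    (hc : Pairwise (fun i j => Disjoint (c i) (c j))) (hs : ⨆ n, c n = a) :
    lam μ a ≤ ∑' n, μ (c n) := iInf_le _ (⟨c, hc, hs⟩ : {c : ℕ → B //
      Pairwise (fun i j => Disjoint (c i) (c j)) ∧ ⨆ n, c n = a})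

lemma le_lam {μ : B → ℝ≥0∞} {a : B} {x : ℝ≥0∞} (h : ∀ c : ℕ → B,
    Pairwise (fun i j => Disjoint (c i) (c j)) → ⨆ n, c n = a → x ≤ ∑' n, μ (c n)) :
    x ≤ lam μ a := le_iInf fun c => h c.1 c.2.1 c.2.2

lemma exists_lt_of_lam_lt {μ : B → ℝ≥0∞} {a : B} {x : ℝ≥0∞} (h : lam μ a < x) : ∃ c : ℕ → B,
    Pairwise (fun i j => Disjoint (c i) (c j)) ∧ ⨆ n, c n = a ∧ ∑' n, μ (c n) < x := by
  obtain ⟨c, hc⟩ := iInf_lt_iff.1 h
  exact ⟨c.1, c.2.1, c.2.2, hc⟩

section

variable {μ : B → ℝ≥0∞} (hadd : ∀ a b : B, Disjoint a b → μ (a ⊔ b) = μ a + μ b)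
  (htop : μ ⊤ ≠ ∞)

include hadd htop

lemma lam_le_self (a : B) : lam μ a ≤ μ a := by
  have hbot := fin_bot hadd htop
  refine (lam_le (fun n => if n = 0 then a else ⊥) ?_ ?_).trans ?_
  · intro i j hij
    by_cases hi : i = 0
    · have hj : j ≠ 0 := by omega
      simp [hj]
    · simp [hi]
  · apply le_antisymm
    · refine iSup_le fun n => ?_
      split_ifs
      · exact le_rfl
      · exact bot_le
    · exact le_iSup_of_le 0 (by simp)
  · rw [tsum_eq_single 0]
    · simp
    · intro n hn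
      simp [hn, hbot]

lemma lam_ne_top (a : B) : lam μ a ≠ ∞ := by
  refine ne_top_of_le_ne_top htop ((lam_le_self hadd htop a).trans (fin_mono hadd le_top))

lemma lam_sigma {a : ℕ → B} (ha : Pairwise (fun i j => Disjoint (a i) (a j))) :
    ∑' n, lam μ (a n) = lam μ (⨆ n, a n) := by
  apply le_antisymm
  · refine le_lam fun c hc hs => ?_
    calc ∑' i, lam μ (a i) ≤ ∑' i, ∑' n, μ (c n ⊓ a i) := by
          refine ENNReal.tsum_le_tsum fun i => ?_
          refine lam_le (fun n => c n ⊓ a i) ?_ ?_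
          · intro j k hjk
            exact (hc hjk).mono inf_le_left inf_le_left
          · rw [← iSup_inf_eq, hs]
            exact inf_eq_right.2 (le_iSup a i)
      _ = ∑' n, ∑' i, μ (c n ⊓ a i) := ENNReal.tsum_comm
      _ ≤ ∑' n, μ (c n) := ENNReal.tsum_le_tsum fun n => tsum_inf_le hadd htop ha (c n)
  · refine ENNReal.le_of_forall_pos_le_add fun ε hε _ => ?_
    obtain ⟨ε', hε'pos, hε'sum⟩ := ENNReal.exists_pos_sum_of_countable
      (ε := (ε : ℝ≥0∞)) (by exact_mod_cast hε.ne') ℕ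
    have hlt : ∀ i, lam μ (a i) < lam μ (a i) + ε' i := fun i =>
      ENNReal.lt_add_right (lam_ne_top hadd htop _) (by
        have := hε'pos i
        exact_mod_cast this.ne')
    choose c hc hs hlt' using fun i => exists_lt_of_lam_lt (hlt i)
    have hpart : lam μ (⨆ n, a n) ≤ ∑' k : ℕ, μ (c (Nat.unpair k).1 (Nat.unpair k).2) := by
      refine lam_le (fun k : ℕ => c (Nat.unpair k).1 (Nat.unpair k).2) ?_ ?_
      · intro k l hkl
        by_cases h1 : (Nat.unpair k).1 = (Nat.unpair l).1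
        · have h2 : (Nat.unpair k).2 ≠ (Nat.unpair l).2 := by
            intro h2
            apply hkl
            rw [← Nat.pair_unpair k, ← Nat.pair_unpair l, h1, h2]
          simp only [h1]
          exact hc _ h2
        · refine (ha h1).mono ?_ ?_
          · rw [← hs (Nat.unpair k).1]
            exact le_iSup (c (Nat.unpair k).1) _
          · rw [← hs (Nat.unpair l).1]
            exact le_iSup (c (Nat.unpair l).1) _
      · apply le_antisymm
        · refine iSup_le fun k => ?_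
          refine le_iSup_of_le (Nat.unpair k).1 ?_
          rw [← hs (Nat.unpair k).1]
          exact le_iSup (c (Nat.unpair k).1) _
        · refine iSup_le fun i => ?_
          rw [← hs i]
          refine iSup_le fun n => ?_
          refine le_iSup_of_le (Nat.pair i n) ?_
          simp
    have hsum : ∑' k : ℕ, μ (c (Nat.unpair k).1 (Nat.unpair k).2) = ∑' i, ∑' n, μ (c i n) := by
      rw [← ENNReal.tsum_prod (f := fun i n => μ (c i n))]
      exact Equiv.tsum_eq Nat.pairEquiv.symm (fun p : ℕ × ℕ => μ (c p.1 p.2))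
    calc lam μ (⨆ n, a n) ≤ ∑' i, ∑' n, μ (c i n) := hsum ▸ hpart
      _ ≤ ∑' i, (lam μ (a i) + ε' i) := ENNReal.tsum_le_tsum fun i => (hlt' i).le
      _ = ∑' i, lam μ (a i) + ∑' i, (ε' i : ℝ≥0∞) := ENNReal.tsum_add
      _ ≤ ∑' i, lam μ (a i) + ε := by gcongr

lemma lam_pos {m : B → ℝ} (hm : IsContinuousOuterMeasure m) (hpos : ∀ a : B, a ≠ ⊥ → μ a ≠ 0)
    (a : B) (ha : a ≠ ⊥) : lam μ a ≠ 0 := by
  intro h0
  have hma := hm.pos a ha
  have hex : ∀ k : ℕ, ∃ d : B, d ≤ a ∧ μ d ≤ (2⁻¹ : ℝ≥0∞) ^ k ∧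
      m (a \ d) < m a / 4 * (1/2:ℝ) ^ k := by
    intro k
    have hk : lam μ a < (2⁻¹ : ℝ≥0∞) ^ k := by
      rw [h0]
      exact pos_iff_ne_zero.2 (by simp)
    obtain ⟨c, hc, hs, hlt⟩ := exists_lt_of_lam_lt hk
    have hanti : Antitone (fun N => a \ (Finset.range N).sup c) := by
      intro i j hij
      apply sdiff_le_sdiff_left
      exact Finset.sup_mono (Finset.range_mono hij)
    have hbs : ⨆ N, (Finset.range N).sup c = a := by
      rw [← hs]
      apply le_antisymm
      · exact iSup_le fun n => Finset.sup_le fun k _ => le_iSup c k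
      · refine iSup_le fun n => ?_
        refine le_trans ?_ (le_iSup (fun N => (Finset.range N).sup c) (n+1))
        exact Finset.le_sup (f := c) (Finset.mem_range.2 (Nat.lt_succ_self n))
    have hinf : ⨅ N, (a \ (Finset.range N).sup c) = ⊥ := by
      simp only [_root_.sdiff_eq]
      rw [← inf_iInf, ← compl_iSup, hbs, inf_compl_self]
    have hlim := hm.cont _ hanti hinf
    have hev := hlim.eventually (gt_mem_nhds (show (0:ℝ) < m a / 4 * (1/2:ℝ) ^ k by positivity))
    obtain ⟨N, hN⟩ := hev.exists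
    refine ⟨(Finset.range N).sup c, ?_, ?_, hN⟩
    · rw [← hbs]
      exact le_iSup (fun N => (Finset.range N).sup c) N
    · rw [fin_sum hadd htop hc]
      exact (ENNReal.sum_le_tsum _).trans hlt.le
  choose d hda hdμ hdm using hex
  set b : B := a \ ⨆ k, (a \ d k) with hb
  have hcs : m (⨆ k, (a \ d k)) ≤ m a / 2 := by
    refine hm.csub _ _ fun n => ?_
    calc ∑ k ∈ Finset.range n, m (a \ d k) ≤ ∑ k ∈ Finset.range n, m a / 4 * (1/2:ℝ) ^ k :=
          Finset.sum_le_sum fun k _ => (hdm k).le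
      _ = m a / 4 * ∑ k ∈ Finset.range n, (1/2:ℝ) ^ k := by rw [Finset.mul_sum]
      _ ≤ m a / 4 * 2 := by
          refine mul_le_mul_of_nonneg_left ?_ (by positivity)
          have := sum_geometric_two_le n
          simpa using this
      _ = m a / 2 := by ring
  have hbne : b ≠ ⊥ := by
    intro hb0
    have hle : a ≤ ⨆ k, (a \ d k) := by
      rwa [hb, sdiff_eq_bot_iff] at hb0
    have := hm.mono _ _ hle
    linarith
  have hbd : ∀ k, b ≤ d k := by
    intro k
    have h1 : b ≤ a \ (a \ d k) := sdiff_le_sdiff_left (le_iSup (fun k => a \ d k) k)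
    exact h1.trans _root_.sdiff_sdiff_le
  have hb0 : μ b ≤ 0 := by
    have hlim : Tendsto (fun k : ℕ => (2⁻¹ : ℝ≥0∞) ^ k) atTop (𝓝 0) :=
      ENNReal.tendsto_pow_atTop_nhds_zero_of_lt_one (by
        rw [ENNReal.inv_lt_one]
        norm_num)
    exact ge_of_tendsto' hlim fun k => (fin_mono hadd (hbd k)).trans (hdμ k)
  exact hpos b hbne (le_antisymm hb0 zero_le)

end

end Pool.Agent.W864.MS
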