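import Pool.Agent.W864.MS.Defs

namespace Pool.Agent.W864.MS

open Filter Topology Set
open scoped ENNReal

universe u

variable {B : Type u} [CompleteBooleanAlgebra B]

namespace IsCompleteSubalgebra

variable {C : Set B} (h : IsCompleteSubalgebra C)
include h

lemma top_mem : (⊤ : B) ∈ C := by
  simpa using h.sInf_mem ∅ (by simp)

lemma bot_mem : (⊥ : B) ∈ C := by
  simpa using h.sSup_mem ∅ (by simp)

lemma sup_mem {a b : B} (ha : a ∈ C) (hb : b ∈ C) : a ⊔ b ∈ C := by
  have := h.sSup_mem {a, b} (by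
    intro x hx
    rcases hx with rfl | rfl
    · exact ha
    · exact hb)
  simpa using this

lemma inf_mem {a b : B} (ha : a ∈ C) (hb : b ∈ C) : a ⊓ b ∈ C := by
  have := h.sInf_mem {a, b} (by
    intro x hx
    rcases hx with rfl | rfl
    · exact ha
    · exact hb)
  simpa using this

lemma sdiff_mem {a b : B} (ha : a ∈ C) (hb : b ∈ C) : a \ b ∈ C := by
  rw [_root_.sdiff_eq]
  exact h.inf_mem ha (h.compl_mem _ hb)

lemma iSup_mem {ι : Sort*} {a : ι → B} (ha : ∀ i, a i ∈ C) : (⨆ i, a i) ∈ C :=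
  h.sSup_mem _ (by rintro _ ⟨i, rfl⟩; exact ha i)

lemma iInf_mem {ι : Sort*} {a : ι → B} (ha : ∀ i, a i ∈ C) : (⨅ i, a i) ∈ C :=
  h.sInf_mem _ (by rintro _ ⟨i, rfl⟩; exact ha i)

end IsCompleteSubalgebra

lemma IsCompleteSubalgebra.disjointed_mem {C : Set B} (h : IsCompleteSubalgebra C) {a : ℕ → B}
    (ha : ∀ n, a n ∈ C) (n : ℕ) : disjointed a n ∈ C := by
  have hp : ∀ n, partialSups a n ∈ C := by
    intro n
    induction n with
    | zero => simpa using ha 0
    | succ n ih => rw [partialSups_add_one]; exact h.sup_mem ih (ha _)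
  cases n with
  | zero => simpa using ha 0
  | succ n =>
    rw [← Order.succ_eq_add_one, disjointed_succ a (not_isMax n)]
    exact h.sdiff_mem (ha _) (hp n)

lemma isCompleteSubalgebra_gen (G : Set B) : IsCompleteSubalgebra (gen G) := by
  refine ⟨?_, ?_, ?_⟩
  · intro a ha C hC
    exact hC.1.compl_mem a (ha C hC)
  · intro S hS C hC
    exact hC.1.sSup_mem S (fun x hx => hS hx C hC)
  · intro S hS C hC
    exact hC.1.sInf_mem S (fun x hx => hS hx C hC)

lemma subset_gen (G : Set B) : G ⊆ gen G := fun _ hx _ hC => hC.2 hx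

lemma gen_mono {G H : Set B} (h : G ⊆ H) : gen G ⊆ gen H :=
  fun _ hx C hC => hx C ⟨hC.1, h.trans hC.2⟩

/-- countable subadditivity of a continuous outer measure. -/
lemma IsContinuousOuterMeasure.csub {m : B → ℝ} (hm : IsContinuousOuterMeasure m) (a : ℕ → B)
    (K : ℝ) (hK : ∀ n, ∑ k ∈ Finset.range n, m (a k) ≤ K) : m (⨆ n, a n) ≤ K := by
  set b : ℕ → B := fun n => (Finset.range n).sup a with hb
  have hbK : ∀ n, m (b n) ≤ K := by
    intro n
    refine le_trans ?_ (hK n)
    induction n with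
    | zero => simp [hb, hm.bot]
    | succ n ih =>
      have : b (n+1) = b n ⊔ a n := by
        simp [hb, Finset.range_add_one, sup_comm]
      rw [this, Finset.sum_range_succ]
      exact (hm.subadd _ _).trans (by linarith)
  have hbs : ⨆ n, b n = ⨆ n, a n := by
    apply le_antisymm
    · exact iSup_le fun n => Finset.sup_le fun k _ => le_iSup a k
    · refine iSup_le fun n => ?_
      refine le_trans ?_ (le_iSup b (n+1))
      exact Finset.le_sup (f := a) (Finset.mem_range.2 (Nat.lt_succ_self n))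
  have hanti : Antitone (fun n => (⨆ n, a n) \ b n) := by
    intro i j hij
    apply sdiff_le_sdiff_left
    exact Finset.sup_mono (Finset.range_mono hij)
  have hinf : ⨅ n, ((⨆ n, a n) \ b n) = ⊥ := by
    rw [← hbs]
    simp only [_root_.sdiff_eq]
    rw [← inf_iInf, ← compl_iSup, inf_compl_self]
  have hlim := hm.cont _ hanti hinf
  have hle : ∀ n, m (⨆ n, a n) ≤ K + m ((⨆ n, a n) \ b n) := by
    intro n
    have h1 : (⨆ n, a n) ≤ b n ⊔ ((⨆ n, a n) \ b n) := by
      rw [sup_sdiff_self]
      exact le_sup_right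
    calc m (⨆ n, a n) ≤ m (b n ⊔ ((⨆ n, a n) \ b n)) := hm.mono _ _ h1
      _ ≤ m (b n) + m ((⨆ n, a n) \ b n) := hm.subadd _ _
      _ ≤ _ := by linarith [hbK n]
  have := le_of_tendsto_of_tendsto' tendsto_const_nhds (hlim.const_add K) hle
  simpa using this

/-- a countably additive function on a complete subalgebra vanishes at `⊥` and is additive. -/
lemma sigma_add {C : Set B} (hC : IsCompleteSubalgebra C)
    {ν : B → ℝ} 
    (hνs : ∀ a : ℕ → B, (∀ n, a n ∈ C) → Pairwise (fun i j => Disjoint (a i) (a j)) →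
      HasSum (fun n => ν (a n)) (ν (⨆ n, a n))) :
    ν ⊥ = 0 ∧ ∀ a ∈ C, ∀ b ∈ C, Disjoint a b → ν (a ⊔ b) = ν a + ν b := by
  -- basic facts on ν
  have hbot : ν ⊥ = 0 := by
    have h := hνs (fun _ => ⊥) (fun _ => hC.bot_mem) (fun _ _ _ => disjoint_bot_left)
    simp only [iSup_const] at h
    have := h.summable.tendsto_atTop_zero
    exact tendsto_nhds_unique tendsto_const_nhds this
  have hadd : ∀ a ∈ C, ∀ b ∈ C, Disjoint a b → ν (a ⊔ b) = ν a + ν b := by
    intro a ha b hb hab
    have h := hνs (fun n => if n = 0 then a else if n = 1 then b else ⊥) (by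
      intro n
      split_ifs
      · exact ha
      · exact hb
      · exact hC.bot_mem) (by
      intro i j hij
      split_ifs <;> first | exact hab | exact hab.symm | exact disjoint_bot_left | exact disjoint_bot_right | omega)
    have h2 : HasSum (fun n => ν (if n = 0 then a else if n = 1 then b else ⊥)) (ν a + ν b) := by
      have : HasSum (fun n => ν (if n = 0 then a else if n = 1 then b else ⊥))
          (∑ n ∈ Finset.range 2, ν (if n = 0 then a else if n = 1 then b else ⊥)) :=
        hasSum_sum_of_ne_finset_zero (by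
          intro n hn
          have : ¬ n < 2 := by simpa using hn
          have h0 : n ≠ 0 := by omega
          have h1 : n ≠ 1 := by omega
          simp [h0, h1, hbot])
      simpa [Finset.sum_range_succ] using this
    have h3 : (⨆ n : ℕ, (if n = 0 then a else if n = 1 then b else ⊥)) = a ⊔ b := by
      apply le_antisymm
      · refine iSup_le fun n => ?_
        split_ifs
        · exact le_sup_left
        · exact le_sup_right
        · exact bot_le
      · refine sup_le ?_ ?_
        · exact le_iSup_of_le 0 (by simp)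
        · exact le_iSup_of_le 1 (by simp)
    rw [h3] at h
    exact h.unique h2
  exact ⟨hbot, hadd⟩

/-- countably additive real measures on a complete subalgebra are absolutely continuous with
respect to a continuous outer measure in the reverse direction. -/
lemma ac {m : B → ℝ} (hm : IsContinuousOuterMeasure m) {C : Set B} (hC : IsCompleteSubalgebra C)
    {ν : B → ℝ} (hν0 : ∀ a ∈ C, 0 ≤ ν a) (hνp : ∀ a ∈ C, a ≠ ⊥ → 0 < ν a)
    (hνs : ∀ a : ℕ → B, (∀ n, a n ∈ C) → Pairwise (fun i j => Disjoint (a i) (a j)) →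
      HasSum (fun n => ν (a n)) (ν (⨆ n, a n))) (ε : ℝ) (hε : 0 < ε) :
    ∃ δ : ℝ, 0 < δ ∧ ∀ a ∈ C, ε ≤ m a → δ ≤ ν a := by
  obtain ⟨hbot, hadd⟩ := sigma_add hC hνs
  have hmono : ∀ a ∈ C, ∀ b ∈ C, a ≤ b → ν a ≤ ν b := by
    intro a ha b hb hab
    have : b = a ⊔ (b \ a) := by rw [sup_sdiff_cancel_right hab]
    rw [this, hadd a ha _ (hC.sdiff_mem hb ha) disjoint_sdiff_self_right]
    linarith [hν0 _ (hC.sdiff_mem hb ha)]
  -- countable subadditivity of ν
  have hsub : ∀ a : ℕ → B, (∀ n, a n ∈ C) → ∀ K : ℝ,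
      (∀ n, ∑ k ∈ Finset.range n, ν (a k) ≤ K) → ν (⨆ n, a n) ≤ K := by
    intro a ha K hK
    have hmem : ∀ n, disjointed a n ∈ C := hC.disjointed_mem ha
    have hd := hνs (disjointed a) hmem (fun i j hij => disjoint_disjointed a hij)
    rw [iSup_disjointed] at hd
    refine le_of_tendsto' hd.tendsto_sum_nat fun n => ?_
    refine le_trans (Finset.sum_le_sum fun k _ => ?_) (hK n)
    exact hmono _ (hmem k) _ (ha k) (disjointed_le a k)
  by_contra hcon
  push Not at hcon
  have hcon' : ∀ n : ℕ, ∃ a ∈ C, ε ≤ m a ∧ ν a < (1/2:ℝ)^n := by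
    intro n
    obtain ⟨a, h1, h2, h3⟩ := hcon ((1/2:ℝ)^n) (by positivity)
    exact ⟨a, h1, h2, h3⟩
  choose a haC ham haν using hcon'
  set c : ℕ → B := fun n => ⨆ k, a (n + k) with hc
  have hcC : ∀ n, c n ∈ C := fun n => hC.iSup_mem fun k => haC _
  have hcanti : Antitone c := by
    apply antitone_nat_of_succ_le
    intro n
    refine iSup_le fun k => ?_
    have : n + 1 + k = n + (k+1) := by omega
    rw [this]
    exact le_iSup (fun k => a (n + k)) (k+1)
  have hcν : ∀ n, ν (c n) ≤ 2 * (1/2:ℝ)^n := by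
    intro n
    refine hsub (fun k => a (n+k)) (fun k => haC _) _ fun N => ?_
    calc ∑ k ∈ Finset.range N, ν (a (n+k)) ≤ ∑ k ∈ Finset.range N, (1/2:ℝ)^n * (1/2:ℝ)^k := by
          refine Finset.sum_le_sum fun k _ => ?_
          rw [← pow_add]
          exact (haν _).le
      _ = (1/2:ℝ)^n * ∑ k ∈ Finset.range N, (1/2:ℝ)^k := by rw [Finset.mul_sum]
      _ ≤ (1/2:ℝ)^n * 2 := by
          refine mul_le_mul_of_nonneg_left ?_ (by positivity)
          have := sum_geometric_two_le N
          simpa using this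
      _ = _ := by ring
  have hinf : ⨅ n, c n = ⊥ := by
    by_contra hne
    have hpos := hνp _ (hC.iInf_mem hcC) hne
    have hle : ∀ n, ν (⨅ n, c n) ≤ 2 * (1/2:ℝ)^n := fun n =>
      (hmono _ (hC.iInf_mem hcC) _ (hcC n) (iInf_le c n)).trans (hcν n)
    have hlim : Tendsto (fun n : ℕ => 2 * (1/2:ℝ)^n) atTop (𝓝 0) := by
      have := (tendsto_pow_atTop_nhds_zero_of_lt_one (r := (1/2:ℝ)) (by norm_num) (by norm_num)).const_mul 2
      simpa using this
    have := ge_of_tendsto' hlim hle
    linarith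
  have hlim := hm.cont c hcanti hinf
  have hge : ∀ n, ε ≤ m (c n) := fun n =>
    (ham n).trans (hm.mono _ _ (by
      have := le_iSup (fun k => a (n + k)) 0
      simpa [hc] using this))
  have := ge_of_tendsto' hlim hge
  linarith

end Pool.Agent.W864.MS
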