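import Mathlib

/-!
Definitions for the problem on measures on complete Boolean algebras.
-/

namespace Pool.Agent.W864.MS

open Filter Topology Set
open scoped ENNReal

universe u

variable {B : Type u} [CompleteBooleanAlgebra B]

/-- `C` is a complete subalgebra of `B`: closed under complements and under all suprema and
infima taken in `B` (in particular it contains `⊥` and `⊤`). -/
structure IsCompleteSubalgebra (C : Set B) : Prop where
  compl_mem : ∀ a ∈ C, aᶜ ∈ C
  sSup_mem : ∀ S : Set B, S ⊆ C → sSup S ∈ C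
  sInf_mem : ∀ S : Set B, S ⊆ C → sInf S ∈ C

/-- The smallest complete subalgebra containing `G`. -/
def gen (G : Set B) : Set B := ⋂₀ {C : Set B | IsCompleteSubalgebra C ∧ G ⊆ C}

/-- `C` is countably generated as a complete subalgebra. -/
def IsCountablyGenerated (C : Set B) : Prop := ∃ G : Set B, G.Countable ∧ C = gen G

/-- The (complete) subalgebra `C` admits a measure: a strictly positive, countably additive
real function on `C`. -/
def AdmitsMeasure (C : Set B) : Prop :=
  ∃ μ : B → ℝ, (∀ a ∈ C, 0 ≤ μ a) ∧ (∀ a ∈ C, a ≠ ⊥ → 0 < μ a) ∧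
    ∀ a : ℕ → B, (∀ n, a n ∈ C) → Pairwise (fun i j => Disjoint (a i) (a j)) →
      HasSum (fun n => μ (a n)) (μ (⨆ n, a n))

/-- `m` is a continuous outer measure on `B`. -/
structure IsContinuousOuterMeasure (m : B → ℝ) : Prop where
  bot : m ⊥ = 0
  pos : ∀ a, a ≠ ⊥ → 0 < m a
  mono : ∀ a b, a ≤ b → m a ≤ m b
  subadd : ∀ a b, m (a ⊔ b) ≤ m a + m b
  cont : ∀ a : ℕ → B, Antitone a → ⨅ n, a n = ⊥ → Tendsto (fun n => m (a n)) atTop (𝓝 0)

end Pool.Agent.W864.MS
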