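import Pool.Agent.W864.MS.Basic

namespace Pool.Agent.W864.MS

open Filter Topology Set
open scoped ENNReal

universe u

variable {B : Type u} [CompleteBooleanAlgebra B]

/-- Uniform lower bounds on all finitely generated complete subalgebras. -/
lemma uniform [Nontrivial B] {m : B → ℝ} (hm : IsContinuousOuterMeasure m)
    (hcg : ∀ C : Set B, IsCompleteSubalgebra C → IsCountablyGenerated C → AdmitsMeasure C)
    (ε : ℝ) (hε : 0 < ε) :
    ∃ δ : ℝ≥0∞, δ ≠ 0 ∧ ∀ F : Finset B, ∃ μ : B → ℝ≥0∞, μ ⊤ = 1 ∧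
      (∀ a ∈ gen (F : Set B), ∀ b ∈ gen (F : Set B), Disjoint a b → μ (a ⊔ b) = μ a + μ b) ∧
      (∀ a ∈ gen (F : Set B), ε ≤ m a → δ ≤ μ a) := by
  by_contra hcon
  push Not at hcon
  have hcon' : ∀ j : ℕ, ∃ F : Finset B, ∀ μ : B → ℝ≥0∞, μ ⊤ = 1 →
      (∀ a ∈ gen (F : Set B), ∀ b ∈ gen (F : Set B), Disjoint a b → μ (a ⊔ b) = μ a + μ b) →
      ∃ a ∈ gen (F : Set B), ε ≤ m a ∧ μ a < ((j : ℝ≥0∞))⁻¹ := by
    intro j
    exact hcon _ (by simp)
  choose F hF using hcon'
  set G : Set B := ⋃ j, (F j : Set B) with hG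
  have hGc : G.Countable := countable_iUnion fun j => (F j).countable_toSet
  have hC := isCompleteSubalgebra_gen G
  obtain ⟨ν, hν0, hνp, hνs⟩ := hcg (gen G) hC ⟨G, hGc, rfl⟩
  obtain ⟨hbot, hadd⟩ := sigma_add hC hνs
  have htop : 0 < ν ⊤ := hνp _ hC.top_mem top_ne_bot
  obtain ⟨δ, hδ, hδa⟩ := ac hm hC hν0 hνp hνs ε hε
  have hδ' : ENNReal.ofReal (δ / ν ⊤) ≠ 0 := by
    simp only [ne_eq, ENNReal.ofReal_eq_zero, not_le]
    positivity
  obtain ⟨j, hj⟩ := ENNReal.exists_inv_nat_lt hδ'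
  have hsub : gen (F j : Set B) ⊆ gen G := gen_mono (subset_iUnion (fun j => (F j : Set B)) j)
  obtain ⟨a, ha, hma, hlt⟩ := hF j (fun a => ENNReal.ofReal (ν a / ν ⊤)) (by
    simp [div_self htop.ne']) (by
    intro a ha b hb hab
    rw [hadd a (hsub ha) b (hsub hb) hab, add_div, ENNReal.ofReal_add]
    · exact div_nonneg (hν0 _ (hsub ha)) htop.le
    · exact div_nonneg (hν0 _ (hsub hb)) htop.le)
  have h1 : ENNReal.ofReal (δ / ν ⊤) ≤ ENNReal.ofReal (ν a / ν ⊤) :=
    ENNReal.ofReal_le_ofReal (div_le_div_of_nonneg_right (hδa a (hsub ha) hma) htop.le)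
  exact absurd (lt_of_lt_of_le hj h1) (not_lt.2 hlt.le)

/-- A finitely additive probability on `B` with lower bounds. -/
lemma exists_finAdd [Nontrivial B] {m : B → ℝ} (hm : IsContinuousOuterMeasure m)
    (hcg : ∀ C : Set B, IsCompleteSubalgebra C → IsCountablyGenerated C → AdmitsMeasure C)
    (ε : ℝ) (hε : 0 < ε) :
    ∃ μ : B → ℝ≥0∞, μ ⊤ = 1 ∧ (∀ a b : B, Disjoint a b → μ (a ⊔ b) = μ a + μ b) ∧
      ∀ a : B, ε ≤ m a → μ a ≠ 0 := by
  obtain ⟨δ, hδ, hF⟩ := uniform hm hcg ε hε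
  choose μ hμtop hμadd hμlow using hF
  set U : Ultrafilter (Finset B) := Ultrafilter.of atTop with hU
  have hUle : (U : Filter (Finset B)) ≤ atTop := Ultrafilter.of_le _
  have hlim : ∀ b : B, Tendsto (fun F => μ F b) U (𝓝 (U.map (fun F => μ F b)).lim) := by
    intro b
    exact (U.map (fun F => μ F b)).le_nhds_lim
  have hev : ∀ b : B, ∀ᶠ F : Finset B in (U : Filter (Finset B)), b ∈ gen (F : Set B) := by
    intro b
    have : ∀ᶠ F : Finset B in atTop, {b} ≤ F := eventually_ge_atTop {b}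
    filter_upwards [hUle this] with F hF
    exact subset_gen _ (by
      have : b ∈ F := hF (Finset.mem_singleton_self b)
      exact this)
  refine ⟨fun b => (U.map (fun F => μ F b)).lim, ?_, ?_, ?_⟩
  · have h1 := hlim ⊤
    have h2 : Tendsto (fun F => μ F ⊤) U (𝓝 1) := by
      simp only [hμtop]
      exact tendsto_const_nhds
    exact tendsto_nhds_unique h1 h2
  · intro a b hab
    have h1 := hlim (a ⊔ b)
    have h2 := (hlim a).add (hlim b)
    refine tendsto_nhds_unique h1 (h2.congr' ?_)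
    filter_upwards [hev a, hev b] with F ha hb
    exact (hμadd F a ha b hb hab).symm
  · intro a ha
    have : δ ≤ (U.map (fun F => μ F a)).lim := by
      refine ge_of_tendsto (hlim a) ?_
      filter_upwards [hev a] with F hF
      exact hμlow F a hF ha
    intro h0
    simp only at h0
    rw [h0] at this
    exact hδ (le_antisymm this (zero_le))

/-- A strictly positive finitely additive probability on `B`. -/
lemma exists_strictlyPos [Nontrivial B] {m : B → ℝ} (hm : IsContinuousOuterMeasure m)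
    (hcg : ∀ C : Set B, IsCompleteSubalgebra C → IsCountablyGenerated C → AdmitsMeasure C) :
    ∃ μ : B → ℝ≥0∞, μ ⊤ ≠ ∞ ∧ (∀ a b : B, Disjoint a b → μ (a ⊔ b) = μ a + μ b) ∧
      ∀ a : B, a ≠ ⊥ → μ a ≠ 0 := by
  have := fun k : ℕ => exists_finAdd hm hcg (1 / ((k : ℝ) + 1)) (by positivity)
  choose μ hμtop hμadd hμpos using this
  refine ⟨fun a => ∑' k : ℕ, (2⁻¹ : ℝ≥0∞) ^ k * μ k a, ?_, ?_, ?_⟩
  · simp only [hμtop, mul_one]
    rw [ENNReal.tsum_geometric]
    simp
  · intro a b hab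
    rw [← ENNReal.tsum_add]
    refine tsum_congr fun k => ?_
    rw [hμadd k a b hab, mul_add]
  · intro a ha h0
    obtain ⟨k, hk⟩ := exists_nat_one_div_lt (hm.pos a ha)
    rw [ENNReal.tsum_eq_zero] at h0
    have := h0 k
    rw [mul_eq_zero] at this
    rcases this with h | h
    · simp at h
    · exact hμpos k a hk.le h

end Pool.Agent.W864.MS
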